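import Pool.Agent.Work.MP_91aed7_am.Interface

/-! Block DSC: descent to finitely many variables. -/

set_option autoImplicit false

open Finset

namespace Pool.AM

namespace DSC_

open MvPolynomial

/-- a polynomial without the variable `i` is not changed -/
lemma aeval_eq_self {k : Type} [Field k] {σ : Type} {i : σ} {f : MvPolynomial σ k}
    (hf : i ∉ f.vars) (g : σ → MvPolynomial σ k) (hg : ∀ j, j ≠ i → g j = X j) :
    aeval g f = f := by
  have h := MvPolynomial.hom_congr_vars (f₁ := (aeval g : MvPolynomial σ k →ₐ[k] MvPolynomial σ k).toRingHom)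
    (f₂ := RingHom.id (MvPolynomial σ k)) (p₁ := f) (p₂ := f) ?_ ?_ rfl
  · exact h
  · ext c
    simp
  · intro j hj _
    have hji : j ≠ i := fun e => hf (e ▸ hj)
    simp [hg j hji]

/-- elementary automorphisms exist -/
lemma exists_el {k : Type} [Field k] {σ : Type} (i : σ) (f : MvPolynomial σ k)
    (hf : i ∉ f.vars) : ∃ τ : MvPolynomial σ k ≃ₐ[k] MvPolynomial σ k,
      τ (X i) = X i + f ∧ (∀ j, j ≠ i → τ (X j) = X j) := by
  classical
  set g : σ → MvPolynomial σ k := fun j => if j = i then X i + f else X j with hg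
  set g' : σ → MvPolynomial σ k := fun j => if j = i then X i - f else X j with hg'
  have h1 : ∀ j, j ≠ i → g j = X j := fun j hj => by rw [hg]; simp [hj]
  have h1' : ∀ j, j ≠ i → g' j = X j := fun j hj => by rw [hg']; simp [hj]
  have h2 : g i = X i + f := by rw [hg]; simp
  have h2' : g' i = X i - f := by rw [hg']; simp
  have e1 : (aeval g).comp (aeval g') = AlgHom.id k (MvPolynomial σ k) := by
    apply MvPolynomial.algHom_ext
    intro j
    rw [AlgHom.comp_apply, aeval_X, AlgHom.id_apply]
    by_cases hj : j = i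
    · rw [hj, h2', map_sub, aeval_X, h2, aeval_eq_self hf g h1]; ring
    · rw [h1' j hj, aeval_X, h1 j hj]
  have e2 : (aeval g').comp (aeval g) = AlgHom.id k (MvPolynomial σ k) := by
    apply MvPolynomial.algHom_ext
    intro j
    rw [AlgHom.comp_apply, aeval_X, AlgHom.id_apply]
    by_cases hj : j = i
    · rw [hj, h2, map_add, aeval_X, h2', aeval_eq_self hf g' h1']; ring
    · rw [h1 j hj, aeval_X, h1' j hj]
  set τ : MvPolynomial σ k ≃ₐ[k] MvPolynomial σ k := AlgEquiv.ofAlgHom (aeval g) (aeval g') e1 e2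
    with hτ
  have t1 : ∀ p, τ p = aeval g p := fun p => rfl
  refine ⟨τ, ?_, ?_⟩
  · rw [t1, aeval_X, h2]
  · intro j hj; rw [t1, aeval_X, h1 j hj]

/-- scalings exist -/
lemma exists_sc {k : Type} [Field k] {σ : Type} (i : σ) (c : k) (hc : c ≠ 0) :
    ∃ τ : MvPolynomial σ k ≃ₐ[k] MvPolynomial σ k,
      τ (X i) = C c * X i ∧ (∀ j, j ≠ i → τ (X j) = X j) := by
  classical
  set g : σ → MvPolynomial σ k := fun j => if j = i then C c * X i else X j with hg
  set g' : σ → MvPolynomial σ k := fun j => if j = i then C c⁻¹ * X i else X j with hg'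
  have h1 : ∀ j, j ≠ i → g j = X j := fun j hj => by rw [hg]; simp [hj]
  have h1' : ∀ j, j ≠ i → g' j = X j := fun j hj => by rw [hg']; simp [hj]
  have h2 : g i = C c * X i := by rw [hg]; simp
  have h2' : g' i = C c⁻¹ * X i := by rw [hg']; simp
  have e1 : (aeval g).comp (aeval g') = AlgHom.id k (MvPolynomial σ k) := by
    apply MvPolynomial.algHom_ext
    intro j
    rw [AlgHom.comp_apply, aeval_X, AlgHom.id_apply]
    by_cases hj : j = i
    · rw [hj, h2', map_mul, aeval_X, h2, MvPolynomial.algHom_C, ← mul_assoc]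
      rw [MvPolynomial.algebraMap_eq, ← C_mul, inv_mul_cancel₀ hc, C_1, one_mul]
    · rw [h1' j hj, aeval_X, h1 j hj]
  have e2 : (aeval g').comp (aeval g) = AlgHom.id k (MvPolynomial σ k) := by
    apply MvPolynomial.algHom_ext
    intro j
    rw [AlgHom.comp_apply, aeval_X, AlgHom.id_apply]
    by_cases hj : j = i
    · rw [hj, h2, map_mul, aeval_X, h2', MvPolynomial.algHom_C, ← mul_assoc]
      rw [MvPolynomial.algebraMap_eq, ← C_mul, mul_inv_cancel₀ hc, C_1, one_mul]
    · rw [h1 j hj, aeval_X, h1' j hj]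
  set τ : MvPolynomial σ k ≃ₐ[k] MvPolynomial σ k := AlgEquiv.ofAlgHom (aeval g) (aeval g') e1 e2
    with hτ
  have t1 : ∀ p, τ p = aeval g p := fun p => rfl
  refine ⟨τ, ?_, ?_⟩
  · rw [t1, aeval_X, h2]
  · intro j hj; rw [t1, aeval_X, h1 j hj]

lemma emb_castAdd (n L : ℕ) (i : Fin n) : emb n L (Fin.castAdd L i) = Sum.inl i := by
  unfold emb; rw [Fin.addCases_left]

lemma emb_natAdd (n L : ℕ) (j : Fin L) : emb n L (Fin.natAdd n j) = Sum.inr (j : ℕ) := by
  unfold emb; rw [Fin.addCases_right]

lemma emb_inj (n L : ℕ) : Function.Injective (emb n L) := by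
  intro a b
  refine Fin.addCases (fun i => ?_) (fun i => ?_) a <;>
    refine Fin.addCases (fun j => ?_) (fun j => ?_) b
  · intro h
    rw [emb_castAdd, emb_castAdd] at h
    rw [Sum.inl_injective h]
  · intro h
    rw [emb_castAdd, emb_natAdd] at h
    cases h
  · intro h
    rw [emb_castAdd, emb_natAdd] at h
    cases h
  · intro h
    rw [emb_natAdd, emb_natAdd] at h
    have := Sum.inr_injective h
    rw [Fin.val_injective this]

/-- a bound for the index of a variable -/
def bd {n : ℕ} : Vr n → ℕ := Sum.elim (fun _ => 0) (fun j => j + 1)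

lemma mem_range {n L : ℕ} (v : Vr n) (h : bd v ≤ L) : v ∈ Set.range (emb n L) := by
  rcases v with i | j
  · exact ⟨Fin.castAdd L i, emb_castAdd n L i⟩
  · have hj : j < L := by
      unfold bd at h
      simpa using h
    exact ⟨Fin.natAdd n ⟨j, hj⟩, emb_natAdd n L ⟨j, hj⟩⟩

end DSC_

open MvPolynomial DSC_ in
theorem stmt_DSC : Stmt_DSC := by
  classical
  intro k _ n τ hτ
  induction hτ using Subgroup.closure_induction with
  | mem τ h =>
    rcases h with ⟨i, f, hif, h1, h2⟩ | ⟨i, c, hc, h1, h2⟩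
    · refine ⟨max (bd i) (f.vars.sup bd), ?_⟩
      intro L hL
      have hi : bd i ≤ L := le_trans (le_max_left _ _) hL
      have hf : ∀ v ∈ f.vars, bd v ≤ L := fun v hv =>
        le_trans (Finset.le_sup (f := bd) hv) (le_trans (le_max_right _ _) hL)
      obtain ⟨a₀, ha₀⟩ := mem_range i hi
      obtain ⟨f', hf'⟩ := MvPolynomial.exists_rename_eq_of_vars_subset_range f (emb n L)
        (emb_inj n L) (fun v hv => mem_range v (hf v hv))
      have hvar : a₀ ∉ f'.vars := by
        intro h
        apply hif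
        rw [← hf', ← ha₀, MvPolynomial.vars_def, Multiset.mem_toFinset,
          MvPolynomial.degrees_rename_of_injective (emb_inj n L)]
        rw [MvPolynomial.vars_def, Multiset.mem_toFinset] at h
        exact Multiset.mem_map_of_mem _ h
      obtain ⟨σ, s1, s2⟩ := exists_el a₀ f' hvar
      refine ⟨σ, Subgroup.subset_closure (Or.inr ⟨a₀, f', hvar, s1, s2⟩), ?_⟩
      intro a
      by_cases ha : a = a₀
      · rw [ha, s1, map_add, rename_X, hf', ha₀, h1]
      · rw [s2 a ha, rename_X, h2]
        intro h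
        rw [← ha₀] at h
        exact ha (emb_inj n L h)
    · refine ⟨bd i, ?_⟩
      intro L hi
      obtain ⟨a₀, ha₀⟩ := mem_range i hi
      obtain ⟨σ, s1, s2⟩ := exists_sc a₀ c hc
      refine ⟨σ, Subgroup.subset_closure (Or.inl ?_), ?_⟩
      · intro a
        by_cases ha : a = a₀
        · rw [ha, s1]
          refine le_trans (MvPolynomial.totalDegree_mul _ _) ?_
          rw [totalDegree_C, totalDegree_X]
        · rw [s2 a ha, totalDegree_X]
      · intro a
        by_cases ha : a = a₀
        · rw [ha, s1, map_mul, rename_X, rename_C, ha₀, h1]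
        · rw [s2 a ha, rename_X, h2]
          intro h
          rw [← ha₀] at h
          exact ha (emb_inj n L h)
  | one =>
    refine ⟨0, fun L _ => ⟨1, Subgroup.one_mem _, fun a => ?_⟩⟩
    rw [AlgEquiv.one_apply, AlgEquiv.one_apply, rename_X]
  | mul x y _ _ hx hy =>
    obtain ⟨L₁, h1⟩ := hx
    obtain ⟨L₂, h2⟩ := hy
    refine ⟨max L₁ L₂, fun L hL => ?_⟩
    obtain ⟨σ, s0, s1⟩ := h1 L (le_trans (le_max_left _ _) hL)
    obtain ⟨ρ, r0, r1⟩ := h2 L (le_trans (le_max_right _ _) hL)
    refine ⟨σ * ρ, Subgroup.mul_mem _ s0 r0, fun a => ?_⟩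
    have key : (rename (emb n L) : MvPolynomial (Fin (n + L)) k →ₐ[k] PS k n).comp
          (σ : MvPolynomial (Fin (n + L)) k →ₐ[k] MvPolynomial (Fin (n + L)) k)
        = (x : PS k n →ₐ[k] PS k n).comp (rename (emb n L)) := by
      apply MvPolynomial.algHom_ext
      intro b
      rw [AlgHom.comp_apply, AlgHom.comp_apply, rename_X]
      exact s1 b
    have key' : ∀ p, rename (emb n L) (σ p) = x (rename (emb n L) p) := fun p =>
      congrArg (fun z => z p) key
    rw [AlgEquiv.mul_apply, key', r1, AlgEquiv.mul_apply]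
  | inv x _ hx =>
    obtain ⟨L₁, h1⟩ := hx
    refine ⟨L₁, fun L hL => ?_⟩
    obtain ⟨σ, s0, s1⟩ := h1 L hL
    refine ⟨σ⁻¹, Subgroup.inv_mem _ s0, fun a => ?_⟩
    have key : (rename (emb n L) : MvPolynomial (Fin (n + L)) k →ₐ[k] PS k n).comp
          (σ : MvPolynomial (Fin (n + L)) k →ₐ[k] MvPolynomial (Fin (n + L)) k)
        = (x : PS k n →ₐ[k] PS k n).comp (rename (emb n L)) := by
      apply MvPolynomial.algHom_ext
      intro b
      rw [AlgHom.comp_apply, AlgHom.comp_apply, rename_X]
      exact s1 b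
    have key' : ∀ p, rename (emb n L) (σ p) = x (rename (emb n L) p) := fun p =>
      congrArg (fun z => z p) key
    apply x.injective
    rw [← key']
    have e1 : σ (σ⁻¹ (X a)) = X a := by
      rw [← AlgEquiv.mul_apply, mul_inv_cancel, AlgEquiv.one_apply]
    have e2 : x (x⁻¹ (X (emb n L a))) = X (emb n L a) := by
      rw [← AlgEquiv.mul_apply, mul_inv_cancel, AlgEquiv.one_apply]
    rw [e1, e2, rename_X]

end Pool.AM
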