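import Pool.Agent.Work.MP_91aed7_am.Interface

/-! Block LIN: elementary matrices give tame automorphisms. -/

set_option autoImplicit false

open Finset

namespace Pool.AM

namespace LIN_

open MvPolynomial

/-- a polynomial without the variable `i` is not changed -/
lemma aeval_eq_self {k : Type} [Field k] {σ : Type} {i : σ} {f : MvPolynomial σ k}
    (hf : i ∉ f.vars) (g : σ → MvPolynomial σ k) (hg : ∀ j, j ≠ i → g j = X j) :
    aeval g f = f := by
  have h := MvPolynomial.hom_congr_vars (f₁ := (aeval g : MvPolynomial σ k →ₐ[k] MvPolynomial σ k).toRingHom)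
    (f₂ := RingHom.id (MvPolynomial σ k)) (p₁ := f) (p₂ := f) ?_ ?_ rfl
  · exact h
  · ext c
    simp
  · intro j hj _
    have hji : j ≠ i := fun e => hf (e ▸ hj)
    simp [hg j hji]

/-- elementary automorphisms exist -/
lemma exists_el {k : Type} [Field k] {σ : Type} (i : σ) (f : MvPolynomial σ k)
    (hf : i ∉ f.vars) : ∃ τ : MvPolynomial σ k ≃ₐ[k] MvPolynomial σ k,
      τ (X i) = X i + f ∧ (∀ j, j ≠ i → τ (X j) = X j) ∧
      τ⁻¹ (X i) = X i - f ∧ ∀ j, j ≠ i → τ⁻¹ (X j) = X j := by
  classical
  set g : σ → MvPolynomial σ k := fun j => if j = i then X i + f else X j with hg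
  set g' : σ → MvPolynomial σ k := fun j => if j = i then X i - f else X j with hg'
  have h1 : ∀ j, j ≠ i → g j = X j := fun j hj => by rw [hg]; simp [hj]
  have h1' : ∀ j, j ≠ i → g' j = X j := fun j hj => by rw [hg']; simp [hj]
  have h2 : g i = X i + f := by rw [hg]; simp
  have h2' : g' i = X i - f := by rw [hg']; simp
  have e1 : (aeval g).comp (aeval g') = AlgHom.id k (MvPolynomial σ k) := by
    apply MvPolynomial.algHom_ext
    intro j
    rw [AlgHom.comp_apply, aeval_X, AlgHom.id_apply]
    by_cases hj : j = i
    · rw [hj, h2', map_sub, aeval_X, h2, aeval_eq_self hf g h1]; ring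
    · rw [h1' j hj, aeval_X, h1 j hj]
  have e2 : (aeval g').comp (aeval g) = AlgHom.id k (MvPolynomial σ k) := by
    apply MvPolynomial.algHom_ext
    intro j
    rw [AlgHom.comp_apply, aeval_X, AlgHom.id_apply]
    by_cases hj : j = i
    · rw [hj, h2, map_add, aeval_X, h2', aeval_eq_self hf g' h1']; ring
    · rw [h1 j hj, aeval_X, h1' j hj]
  set τ : MvPolynomial σ k ≃ₐ[k] MvPolynomial σ k := AlgEquiv.ofAlgHom (aeval g) (aeval g') e1 e2
    with hτ
  have t1 : ∀ p, τ p = aeval g p := fun p => rfl
  have t2 : ∀ p, τ⁻¹ p = aeval g' p := fun p => rfl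
  refine ⟨τ, ?_, ?_, ?_, ?_⟩
  · rw [t1, aeval_X, h2]
  · intro j hj; rw [t1, aeval_X, h1 j hj]
  · rw [t2, aeval_X, h2']
  · intro j hj; rw [t2, aeval_X, h1' j hj]

end LIN_

open MvPolynomial LIN_ in
theorem stmt_LIN (hJ : Stmt_J) : Stmt_LIN := by
  classical
  intro k _ n ι _ _ e he N hN
  have J' := hJ k n
  induction hN using Submonoid.closure_induction with
  | mem N hN =>
    obtain ⟨i, j, c, hij, rfl⟩ := hN
    set f : PS k n := rename Sum.inl c * X (Sum.inr (e j)) with hf
    have hvar : (Sum.inr (e i) : Vr n) ∉ f.vars := by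
      intro h
      rw [hf] at h
      have h1 := MvPolynomial.vars_mul _ _ h
      rw [Finset.mem_union] at h1
      rcases h1 with h1 | h1
      · have h2 := MvPolynomial.vars_rename _ _ h1
        rw [Finset.mem_image] at h2
        obtain ⟨a, -, ha⟩ := h2
        cases ha
      · rw [MvPolynomial.vars_X, Finset.mem_singleton] at h1
        exact hij (he (Sum.inr_injective h1))
    obtain ⟨τ, t1, t2, t3, t4⟩ := exists_el (Sum.inr (e i) : Vr n) f hvar
    refine ⟨τ, Subgroup.subset_closure (Or.inl ⟨_, f, hvar, t1, t2⟩), ?_, ?_, ?_, ?_⟩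
    · intro a
      exact t2 _ (by simp)
    · intro a
      by_cases ha : a = i
      · rw [ha, t1, hf]
        have h1 : ∀ b, rename Sum.inl ((Matrix.transvection i j c) i b) * X (Sum.inr (e b))
            = (if i = b then (X (Sum.inr (e b)) : PS k n) else 0)
              + (if j = b then rename Sum.inl c * X (Sum.inr (e b)) else 0) := by
          intro b
          rw [Matrix.transvection, Matrix.add_apply, Matrix.one_apply, Matrix.single_apply]
          rw [map_add, add_mul]
          congr 1
          · split_ifs <;> simp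
          · by_cases hb : j = b
            · simp [hb]
            · simp [hb]
        rw [Finset.sum_congr rfl fun b _ => h1 b, Finset.sum_add_distrib, Finset.sum_ite_eq,
          Finset.sum_ite_eq]
        simp
      · rw [t2 _ (fun h => ha (he (Sum.inr_injective h)))]
        have h1 : ∀ b, rename Sum.inl ((Matrix.transvection i j c) a b) * X (Sum.inr (e b))
            = (if a = b then (X (Sum.inr (e b)) : PS k n) else 0) := by
          intro b
          rw [Matrix.transvection, Matrix.add_apply, Matrix.one_apply, Matrix.single_apply]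
          have h2 : ¬ (i = a ∧ j = b) := fun h => ha h.1.symm
          rw [if_neg h2, add_zero]
          split_ifs <;> simp
        rw [Finset.sum_congr rfl fun b _ => h1 b, Finset.sum_ite_eq]
        simp
    · intro a ha
      apply t2
      intro h
      apply ha
      exact ⟨i, (Sum.inr_injective h).symm⟩
    · intro v
      by_cases hv : v = Sum.inr (e i)
      · rw [hv, t3]
        apply Submodule.sub_mem _ (J'.X_mem _)
        have h1 := J'.mul (J'.zero (rename Sum.inl c)) (J'.X_mem (Sum.inr (e j)))
        rw [zero_add] at h1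
        exact h1
      · rw [t4 v hv]
        exact J'.X_mem v
  | one =>
    refine ⟨1, Subgroup.one_mem _, ?_, ?_, ?_, ?_⟩
    · intro i; rfl
    · intro a
      rw [AlgEquiv.one_apply]
      simp only [Matrix.one_apply]
      rw [Finset.sum_eq_single a]
      · simp
      · intro b _ hb
        rw [if_neg (Ne.symm hb)]
        simp
      · intro h; exact absurd (Finset.mem_univ a) h
    · intro j _; rfl
    · intro v
      rw [inv_one, AlgEquiv.one_apply]
      exact J'.X_mem v
  | mul A B _ _ hA hB =>
    obtain ⟨μ, m0, m1, m2, m3, m4⟩ := hA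
    obtain ⟨ν, n0, n1, n2, n3, n4⟩ := hB
    have hfix : ∀ p : MvPolynomial (Fin n) k, ν (rename Sum.inl p) = rename Sum.inl p := by
      intro p
      have h1 : (ν : PS k n →ₐ[k] PS k n).comp (rename Sum.inl)
          = (rename Sum.inl : MvPolynomial (Fin n) k →ₐ[k] PS k n) := by
        apply MvPolynomial.algHom_ext
        intro i
        rw [AlgHom.comp_apply, rename_X]
        exact n1 i
      exact congrArg (fun z => z p) h1
    refine ⟨ν * μ, Subgroup.mul_mem _ n0 m0, ?_, ?_, ?_, ?_⟩
    · intro i
      rw [AlgEquiv.mul_apply, m1, n1]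
    · intro a
      rw [AlgEquiv.mul_apply, m2, map_sum]
      simp only [map_mul, hfix, n2, Finset.mul_sum]
      rw [Finset.sum_comm]
      apply Finset.sum_congr rfl
      intro c _
      rw [Matrix.mul_apply, map_sum, Finset.sum_mul]
      apply Finset.sum_congr rfl
      intro b _
      rw [map_mul]
      ring
    · intro j hj
      rw [AlgEquiv.mul_apply, m3 j hj, n3 j hj]
    · intro v
      rw [mul_inv_rev, AlgEquiv.mul_apply]
      exact J'.pres ((μ⁻¹ : PS k n ≃ₐ[k] PS k n) : PS k n →ₐ[k] PS k n) m4 (n4 v)

end Pool.AM
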